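import Pool.Agent.Lib.MP_687f9e_an.Law

set_option autoImplicit false

namespace Pool.Agent.Results.MP_687f9e_an.SemigroupLaw

open Pool.Agent.Lib.MP_687f9e_an

/-- **Dichotomy for extremal sequences inside a semigroup of matrices.**  For every multiplicative
semigroup `Γ` of real `d × d` matrices exactly one of the following holds: every finite nonempty
family in `Γ` has a sequence along which the norms are at least the powers of the joint spectral
radius and whose entropy is zero; or for every `κ < 1` and every sufficiently large `m` there is a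
family of `m` matrices in `Γ` all of whose very weakly extremal sequences have entropy at least
`κ log m`. -/
theorem result (d : ℕ) (Γ : Subsemigroup (Matrix (Fin d) (Fin d) ℝ)) :
    Xor
      (∀ (m : ℕ) (A : Fin m → Matrix (Fin d) (Fin d) ℝ), 1 ≤ m → (∀ i, A i ∈ Γ) →
        ∃ x : ℕ → Fin m, (∀ n : ℕ, 1 ≤ n → jsr A ^ n ≤ nrm (prodSeq A x n)) ∧ entropy x = 0)
      (∀ κ : ℝ, κ < 1 → ∃ m₁ : ℕ, ∀ m : ℕ, m₁ ≤ m →
        ∃ A : Fin m → Matrix (Fin d) (Fin d) ℝ, (∀ i, A i ∈ Γ) ∧
          ∀ x : ℕ → Fin m, VeryWeaklyExtremal A x → κ * Real.log m ≤ entropy x) := by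
  rcases law d Γ with h | h
  · refine Or.inl ⟨h.1, fun h' => ?_⟩
    obtain ⟨m₁, hm₁⟩ := h' (1 / 2) (by norm_num)
    obtain ⟨A, hA, hx⟩ := hm₁ (max m₁ 2) (le_max_left _ _)
    have hm : 2 ≤ max m₁ 2 := le_max_right _ _
    obtain ⟨x, hx1, hx2⟩ := h.1 _ A (by omega) hA
    have h3 := hx x (vwe_of_le A x hx1)
    rw [hx2] at h3
    have h4 : 0 < Real.log ((max m₁ 2 : ℕ) : ℝ) := Real.log_pos (by exact_mod_cast hm)
    linarith
  · exact Or.inr ⟨fun κ hκ => spread h.1 hκ, h.2⟩

end Pool.Agent.Results.MP_687f9e_an.SemigroupLaw
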