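import Pool.Agent.Lib.MP_687f9e_an.Law

set_option autoImplicit false

namespace Pool.Agent.Results.MP_687f9e_an.ZeroOneLaw

open Pool.Agent.Lib.MP_687f9e_an

/-- **Zero-one law for the entropy of extremal sequences.**  Let `R` be a subsemiring of `ℝ` (for
instance `ℝ` itself, the nonnegative reals or the integers) and `b ≥ 2`.  Some finite family of
square matrices over `R` has no very weakly extremal sequence of entropy zero if and only if for
every `κ < 1` there is a family of `b` square matrices over `R` all of whose very weakly extremal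
sequences have entropy at least `κ log b`. -/
theorem result (R : Subsemiring ℝ) (b : ℕ) (hb : 2 ≤ b) :
    (∃ (m d : ℕ) (A : Fin m → Matrix (Fin d) (Fin d) ℝ), 1 ≤ m ∧ 1 ≤ d ∧
        (∀ i p q, A i p q ∈ R) ∧
        ∀ x : ℕ → Fin m, VeryWeaklyExtremal A x → 0 < entropy x) ↔
      ∀ κ : ℝ, κ < 1 → ∃ (d : ℕ) (B : Fin b → Matrix (Fin d) (Fin d) ℝ), 1 ≤ d ∧
        (∀ i p q, B i p q ∈ R) ∧
        ∀ x : ℕ → Fin b, VeryWeaklyExtremal B x → κ * Real.log b ≤ entropy x := by
  constructor
  · rintro ⟨m, d, A, hm, -, hR, hA⟩ κ hκ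
    exact pairs_of_family R hb A hm hR hA hκ
  · intro h
    obtain ⟨d, B, hd, hR, hB⟩ := h (1 / 2) (by norm_num)
    refine ⟨b, d, B, by omega, hd, hR, fun x hx => ?_⟩
    have h1 := hB x hx
    have h2 : 0 < Real.log b := Real.log_pos (by exact_mod_cast hb)
    linarith

end Pool.Agent.Results.MP_687f9e_an.ZeroOneLaw
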